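import Pool.Agent.W710.Tube.Geom
import Pool.Agent.W710.Tube.Exist

/-!
A Bedford-McMullen carpet other than the full square that is not tube null.
-/

set_option autoImplicit false

namespace Pool.Agent.Results.MP_ef0505_an.NotTubeNull

open Finset MeasureTheory

/-- the plane with its Euclidean metric and Lebesgue measure (area) -/
abbrev Plane := EuclideanSpace ℝ (Fin 2)

/-- the contraction `S_d (x, y) = ((x + i) / m, (y + j) / n)` of the cell `d = (i, j)` -/
noncomputable def cellMap (m n : ℕ) (d : ℕ × ℕ) (z : Plane) : Plane :=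
  !₂[(z 0 + d.1) / m, (z 1 + d.2) / n]

/-- `F` is the Bedford-McMullen carpet `F(m, n, D)`: nonempty, compact, and the union of its
images under the maps `S_d`, `d ∈ D` -/
def IsCarpet (m n : ℕ) (D : Finset (ℕ × ℕ)) (F : Set Plane) : Prop :=
  IsCompact F ∧ F.Nonempty ∧ F = ⋃ d ∈ D, cellMap m n d '' F

/-- `E` is tube null: for every `δ > 0` it is covered by a family of tubes with total width
less than `δ`. A tube is the open `r`-neighbourhood of a line (the line through two distinct
points `p i`, `q i`); the family is finite or infinite. -/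
def TubeNull (E : Set Plane) : Prop :=
  ∀ δ : ENNReal, 0 < δ → ∃ (ι : Type) (p q : ι → Plane) (r : ι → ℝ),
    (∀ i, p i ≠ q i ∧ 0 < r i) ∧
    E ⊆ ⋃ i, Metric.thickening (r i) (line[ℝ, p i, q i] : Set Plane) ∧
    ∑' i, ENNReal.ofReal (r i) < δ

/-- the same with segments of length at least `ℓ` in place of lines, and with the areas of
the tubes in place of their widths -/
def SegmentTubeNull (ℓ : ℝ) (E : Set Plane) : Prop :=
  ∀ δ : ENNReal, 0 < δ → ∃ (ι : Type) (p q : ι → Plane) (r : ι → ℝ),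
    (∀ i, ℓ ≤ dist (p i) (q i) ∧ 0 < r i) ∧
    E ⊆ ⋃ i, Metric.thickening (r i) (segment ℝ (p i) (q i)) ∧
    ∑' i, volume (Metric.thickening (r i) (segment ℝ (p i) (q i))) < δ

/-- the cells `(i, j)` of the grid with `3` columns and `9` rows for which `i ≢ j (mod 3)` -/
def cells : Finset (ℕ × ℕ) := (range 3 ×ˢ range 9).filter fun d => d.1 ≠ d.2 % 3

open Pool.Agent.W710.Tube in
/-- quantitative form: the radii of a family of tubes that covers the carpet sum to at
least `1 / (2 C)` -/
lemma width_ge {F : Set Plane} (hF : IsCarpet 3 9 cells F) {ι : Type} (p q : ι → Plane)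
    (r : ι → ℝ) (h : ∀ i, p i ≠ q i ∧ 0 < r i)
    (hcov : F ⊆ ⋃ i, Metric.thickening (r i) (line[ℝ, p i, q i] : Set Plane)) :
    ∃ s : Finset ι, 1 / CC ≤ ∑ i ∈ s, 2 * r i := by
  have h1 := fun i => line_strip (h i).1 (r i)
  choose α β t hN hsub using h1
  exact strip_cover (F := F) hF α β t (fun i => 2 * r i) hN (fun i => by
    have := (h i).2
    linarith) (hcov.trans (Set.iUnion_mono hsub))

open Pool.Agent.W710.Tube in
/-- **A Bedford-McMullen carpet that is not tube null.** -/
theorem result :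
    (cells.Nonempty ∧ cells ⊂ range 3 ×ˢ range 9) ∧
    (∃ F, IsCarpet 3 9 cells F) ∧
    ∀ F, IsCarpet 3 9 cells F → ¬ TubeNull F ∧ ∀ ℓ : ℝ, 0 < ℓ → ¬ SegmentTubeNull ℓ F := by
  have hCC := CC_ge
  refine ⟨⟨⟨(0, 1), by decide⟩, by decide⟩,
    exists_carpet (m := 3) (n := 9) (by norm_num) (by norm_num) ⟨(0, 1), by decide⟩, ?_⟩
  intro F hF
  constructor
  · intro hT
    obtain ⟨ι, p, q, r, h, hcov, hsum⟩ := hT (ENNReal.ofReal (1 / (2 * CC)))
      (ENNReal.ofReal_pos.2 (by positivity))
    obtain ⟨s, hs⟩ := width_ge hF p q r h hcov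
    refine absurd (lt_of_le_of_lt (ENNReal.sum_le_tsum s) hsum) (not_lt.2 ?_)
    rw [← ENNReal.ofReal_sum_of_nonneg fun i _ => (h i).2.le]
    apply ENNReal.ofReal_le_ofReal
    rw [← mul_sum] at hs
    rw [div_le_iff₀ (by linarith)] at hs ⊢
    linarith
  · intro ℓ hℓ hT
    obtain ⟨ι, p, q, r, h, hcov, hsum⟩ := hT (ENNReal.ofReal (ℓ / (2 * CC)))
      (ENNReal.ofReal_pos.2 (by positivity))
    have hne : ∀ i, p i ≠ q i := by
      intro i hi
      have := (h i).1
      rw [hi, dist_self] at this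
      linarith
    obtain ⟨s, hs⟩ := width_ge hF p q r (fun i => ⟨hne i, (h i).2⟩)
      (hcov.trans (Set.iUnion_mono fun i =>
        Metric.thickening_subset_of_subset _ (segment_subset_line _ _)))
    refine absurd (lt_of_le_of_lt (ENNReal.sum_le_tsum s) hsum) (not_lt.2 ?_)
    have h1 : ∀ i ∈ s, ENNReal.ofReal (r i * ℓ) ≤
        volume (Metric.thickening (r i) (segment ℝ (p i) (q i))) := by
      intro i _
      refine le_trans (ENNReal.ofReal_le_ofReal ?_) (area_ge (p i) (q i) (h i).2)
      exact mul_le_mul_of_nonneg_left (h i).1 (h i).2.le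
    refine le_trans ?_ (sum_le_sum h1)
    rw [← ENNReal.ofReal_sum_of_nonneg fun i _ => mul_nonneg (h i).2.le hℓ.le]
    apply ENNReal.ofReal_le_ofReal
    rw [← mul_sum] at hs
    rw [← sum_mul]
    rw [div_le_iff₀ (by linarith)] at hs ⊢
    nlinarith

end Pool.Agent.Results.MP_ef0505_an.NotTubeNull
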